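import Pool.Agent.H88.MC.Targets

/-!
# Maximum cut in polynomial space: CN (few pairs with many predicted vertices and few errors)
-/

set_option autoImplicit false

namespace Pool.Agent.H74.E0

open Finset Pool.Agent.H88.MC

lemma const_le : (9 / 16 : ℝ) * 8 ^ ((1 : ℝ) / 10) ≤ 2 ^ (-(1 : ℝ) / 2) := by
  have h : ((9 / 16 : ℝ) * 8 ^ ((1 : ℝ) / 10)) ^ 10 ≤ ((2 : ℝ) ^ (-(1 : ℝ) / 2)) ^ 10 := by
    rw [mul_pow]
    have h1 : ((8 : ℝ) ^ ((1 : ℝ) / 10)) ^ 10 = 8 := by
      rw [← Real.rpow_natCast, ← Real.rpow_mul (by norm_num)]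
      norm_num
    have h2 : ((2 : ℝ) ^ (-(1 : ℝ) / 2)) ^ 10 = 1 / 32 := by
      rw [← Real.rpow_natCast, ← Real.rpow_mul (by norm_num)]
      have h3 : -(1 : ℝ) / 2 * ((10 : ℕ) : ℝ) = ((-5 : ℤ) : ℝ) := by norm_num
      rw [h3, Real.rpow_intCast]
      norm_num
    rw [h1, h2]
    norm_num
  exact (pow_le_pow_iff_left₀ (by positivity) (by positivity) (by norm_num)).1 h

open scoped Classical in
/-- the number of second components -/
lemma count_up {n : ℕ} (j : ℕ) (U P : Finset (Fin n)) (hP : P ⊆ U) (pr : Fin n → Bool) :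
    (#{υ : Fin n → Bool | (∀ v, v ∉ U → υ v = false) ∧ (∀ v : Fin n, j ≤ v.1 → υ v = false) ∧
      10 * #(P.filter (fun v : Fin n => v.1 < j ∧ υ v ≠ pr v)) ≤ #P} : ℝ) ≤
      2 ^ #U * (2 ^ (-(1 : ℝ) / 2)) ^ #P := by
  set t : Fin n → Finset Bool := fun v => if v ∈ U ∧ v.1 < j then Finset.univ else {false} with ht
  set w : Fin n → Bool → ℝ := fun v b => if v ∈ P ∧ v.1 < j ∧ b ≠ pr v then 1 / 8 else 1 with hw
  have h1 : ∑ υ ∈ Fintype.piFinset t, ∏ v, w v (υ v) = ∏ v, ∑ b ∈ t v, w v b := by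
    rw [Finset.prod_univ_sum]
  have h2 : ∀ υ : Fin n → Bool, ∏ v, w v (υ v) =
      (1 / 8) ^ #(P.filter (fun v : Fin n => v.1 < j ∧ υ v ≠ pr v)) := by
    intro υ
    rw [← Finset.prod_const, Finset.prod_filter, ← Finset.prod_filter_mul_prod_filter_not
      Finset.univ (fun v => v ∈ P)]
    have h3 : ∏ v ∈ Finset.univ.filter (fun v => v ∉ P), w v (υ v) = 1 := by
      refine Finset.prod_eq_one fun v hv => ?_
      rw [Finset.mem_filter] at hv
      simp only [hw]
      rw [if_neg (fun h => hv.2 h.1)]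
    rw [h3, mul_one]
    refine Finset.prod_congr (by ext v; simp) fun v hv => ?_
    simp only [hw]
    simp only [hv, true_and]
  have h3 : ∀ v, ∑ b ∈ t v, w v b ≤ (if v ∈ U then (2 : ℝ) else 1) * if v ∈ P then 9 / 16 else 1 := by
    intro v
    by_cases hvP : v ∈ P
    · have hvU := hP hvP
      rw [if_pos hvU, if_pos hvP]
      simp only [ht, hw]
      by_cases hvj : v.1 < j
      · rw [if_pos ⟨hvU, hvj⟩]
        simp only [hvP, hvj, true_and, Fintype.sum_bool]
        cases pr v <;> norm_num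
      · rw [if_neg (fun h => hvj h.2)]
        simp only [hvj, false_and, and_false, Finset.sum_singleton]
        norm_num
    · rw [if_neg hvP]
      simp only [ht, hw, hvP, false_and, if_false, Finset.sum_const, nsmul_eq_mul, mul_one]
      by_cases hvU : v ∈ U
      · rw [if_pos hvU]
        by_cases hvj : v.1 < j
        · rw [if_pos ⟨hvU, hvj⟩]
          simp
        · rw [if_neg (fun h => hvj h.2)]
          simp
      · rw [if_neg hvU, if_neg (fun h => hvU h.1)]
        simp
  have h4 : ∏ v, ∑ b ∈ t v, w v b ≤ 2 ^ #U * (9 / 16) ^ #P := by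
    calc ∏ v, ∑ b ∈ t v, w v b ≤
        ∏ v, ((if v ∈ U then (2 : ℝ) else 1) * if v ∈ P then 9 / 16 else 1) := by
          refine Finset.prod_le_prod (fun v _ => Finset.sum_nonneg fun b _ => ?_) fun v _ => h3 v
          simp only [hw]
          split_ifs <;> norm_num
      _ = 2 ^ #U * (9 / 16) ^ #P := by
          rw [Finset.prod_mul_distrib, Finset.prod_ite_mem, Finset.prod_ite_mem]
          simp only [Finset.univ_inter, Finset.prod_const]
  have h5 : (#{υ : Fin n → Bool | (∀ v, v ∉ U → υ v = false) ∧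
      (∀ v : Fin n, j ≤ v.1 → υ v = false) ∧
      10 * #(P.filter (fun v : Fin n => v.1 < j ∧ υ v ≠ pr v)) ≤ #P} : ℝ) ≤
      (∑ υ ∈ Fintype.piFinset t, ∏ v, w v (υ v)) * (8 : ℝ) ^ ((#P : ℝ) / 10) := by
    rw [Finset.sum_mul, Finset.cast_card]
    refine (Finset.sum_le_sum (g := fun υ : Fin n → Bool => (∏ v, w v (υ v)) *
      (8 : ℝ) ^ ((#P : ℝ) / 10)) fun υ hυ => ?_).trans
      (Finset.sum_le_sum_of_subset_of_nonneg ?_ ?_)
    · rw [Finset.mem_filter] at hυ
      rw [h2]
      have h6 : (8 : ℝ) ^ (#(P.filter (fun v : Fin n => v.1 < j ∧ υ v ≠ pr v)) : ℝ) ≤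
          (8 : ℝ) ^ ((#P : ℝ) / 10) := by
        apply Real.rpow_le_rpow_of_exponent_le (by norm_num)
        rw [le_div_iff₀ (by norm_num)]
        have := hυ.2.2.2
        have h7 : ((10 * #(P.filter (fun v : Fin n => v.1 < j ∧ υ v ≠ pr v)) : ℕ) : ℝ) ≤ #P :=
          Nat.cast_le.2 this
        push_cast at h7
        linarith
      rw [Real.rpow_natCast] at h6
      rw [one_div, inv_pow]
      have h8 : (0 : ℝ) < 8 ^ #(P.filter (fun v : Fin n => v.1 < j ∧ υ v ≠ pr v)) := by positivity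
      rw [inv_mul_eq_div, le_div_iff₀ h8, one_mul]
      exact h6
    · intro υ hυ
      rw [Finset.mem_filter] at hυ
      rw [Fintype.mem_piFinset]
      intro v
      simp only [ht]
      split_ifs with h
      · exact Finset.mem_univ _
      · rw [Finset.mem_singleton]
        rw [not_and_or] at h
        rcases h with h | h
        · exact hυ.2.1 v h
        · exact hυ.2.2.1 v (not_lt.1 h)
    · intro υ _ _
      refine mul_nonneg (Finset.prod_nonneg fun v _ => ?_) (by positivity)
      simp only [hw]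
      split_ifs <;> norm_num
  have h6 : (8 : ℝ) ^ ((#P : ℝ) / 10) = (8 ^ ((1 : ℝ) / 10)) ^ #P := by
    rw [← Real.rpow_natCast, ← Real.rpow_mul (by norm_num)]
    congr 1
    ring
  refine h5.trans ?_
  rw [h1, h6]
  refine (mul_le_mul_of_nonneg_right h4 (by positivity)).trans ?_
  rw [mul_assoc, ← mul_pow]
  exact mul_le_mul_of_nonneg_left (pow_le_pow_left₀ (by positivity) const_le _) (by positivity)

open scoped Classical in
/-- the number of first components -/
lemma count_xi {n : ℕ} (U : Finset (Fin n)) :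
    (#{ξ : Fin n → Bool | ∀ v ∈ U, ξ v = false} : ℝ) * 2 ^ #U = 2 ^ n := by
  have h1 : (Finset.univ.filter fun ξ : Fin n → Bool => ∀ v ∈ U, ξ v = false) =
      Fintype.piFinset fun v => if v ∈ U then {false} else Finset.univ := by
    ext ξ
    rw [Finset.mem_filter, Fintype.mem_piFinset]
    constructor
    · rintro ⟨-, h⟩ v
      split_ifs with hv
      · rw [Finset.mem_singleton]
        exact h v hv
      · exact Finset.mem_univ _
    · intro h
      refine ⟨Finset.mem_univ _, fun v hv => ?_⟩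
      have := h v
      rw [if_pos hv, Finset.mem_singleton] at this
      exact this
  have h2 : ∏ v : Fin n, (#(if v ∈ U then {false} else (Finset.univ : Finset Bool)) : ℝ) *
      (if v ∈ U then (2 : ℝ) else 1) = 2 ^ n := by
    have h3 : ∀ v : Fin n, (#(if v ∈ U then {false} else (Finset.univ : Finset Bool)) : ℝ) *
      (if v ∈ U then (2 : ℝ) else 1) = 2 := by
      intro v
      split_ifs <;> simp
    simp only [h3, Finset.prod_const, Finset.card_univ, Fintype.card_fin]
  rw [h1, Fintype.card_piFinset, Nat.cast_prod, ← h2, Finset.prod_mul_distrib,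
    Finset.prod_ite_mem]
  simp only [Finset.univ_inter, Finset.prod_const]

theorem pf_cn : T_CN := by
  intro n k D j G U hk hD
  classical
  have hkD : (0 : ℝ) < 8 * k * D := by
    have h1 : (0 : ℝ) < k := by exact_mod_cast hk
    have h2 : (0 : ℝ) < D := by exact_mod_cast hD
    positivity
  set C : ℝ := 2 ^ #U * 2 ^ (-((n : ℝ) / (8 * k * D))) with hC
  have hC0 : 0 ≤ C := by positivity
  have hf : ∀ ξ : Fin n → Bool, (∑ υ : Fin n → Bool,
      if ((∀ v ∈ U, ξ v = false) ∧ (∀ v, v ∉ U → υ v = false) ∧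
        (∀ v : Fin n, j ≤ v.1 → υ v = false) ∧ CA k D G U ξ υ j) then (1 : ℝ) else 0) ≤
      if ∀ v ∈ U, ξ v = false then C else 0 := by
    intro ξ
    by_cases hξ : ∀ v ∈ U, ξ v = false
    · rw [if_pos hξ]
      by_cases hn : n ≤ 4 * k * D * #(PP k G U ξ)
      · have h1 := count_up j U (PP k G U ξ) (Finset.filter_subset _ _) (pred G U ξ)
        have h2 : (2 ^ (-(1 : ℝ) / 2) : ℝ) ^ #(PP k G U ξ) ≤ 2 ^ (-((n : ℝ) / (8 * k * D))) := by
          rw [← Real.rpow_natCast, ← Real.rpow_mul (by norm_num)]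
          apply Real.rpow_le_rpow_of_exponent_le (by norm_num)
          have h3 : (n : ℝ) / (8 * k * D) ≤ #(PP k G U ξ) / 2 := by
            rw [div_le_div_iff₀ hkD (by norm_num)]
            have h4 : (n : ℝ) ≤ ((4 * k * D * #(PP k G U ξ) : ℕ) : ℝ) := Nat.cast_le.2 hn
            push_cast at h4
            nlinarith
          linarith
        refine le_trans (le_of_eq ?_) (h1.trans (mul_le_mul_of_nonneg_left h2 (by positivity)))
        rw [← Finset.sum_filter, Finset.sum_const, nsmul_eq_mul, mul_one]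
        congr 2
        refine Finset.filter_congr fun υ _ => ?_
        unfold CA er
        constructor
        · rintro ⟨-, h5, h6, -, h7⟩
          refine ⟨h5, h6, ?_⟩
          convert h7 using 3
        · rintro ⟨h5, h6, h7⟩
          refine ⟨hξ, h5, h6, hn, ?_⟩
          convert h7 using 3
      · rw [Finset.sum_eq_zero]
        · exact hC0
        · intro υ _
          rw [if_neg]
          rintro ⟨-, -, -, h, -⟩
          exact hn h
    · rw [if_neg hξ, Finset.sum_eq_zero]
      intro υ _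
      rw [if_neg (fun h => hξ h.1)]
  have h1 : (#{q : (Fin n → Bool) × (Fin n → Bool) | (∀ v ∈ U, q.1 v = false) ∧
      (∀ v, v ∉ U → q.2 v = false) ∧ (∀ v : Fin n, j ≤ v.1 → q.2 v = false) ∧
      CA k D G U q.1 q.2 j} : ℝ) =
      ∑ ξ : Fin n → Bool, ∑ υ : Fin n → Bool,
      if ((∀ v ∈ U, ξ v = false) ∧ (∀ v, v ∉ U → υ v = false) ∧
        (∀ v : Fin n, j ≤ v.1 → υ v = false) ∧ CA k D G U ξ υ j) then (1 : ℝ) else 0 := by
    rw [← Finset.sum_boole, Fintype.sum_prod_type]
  have h2 := count_xi U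
  have h3 : (∑ ξ : Fin n → Bool, if ∀ v ∈ U, ξ v = false then C else 0) =
      2 ^ ((n : ℝ) - n / (8 * k * D)) := by
    rw [← Finset.sum_filter, Finset.sum_const, nsmul_eq_mul, hC, ← mul_assoc, h2,
      ← Real.rpow_natCast, ← Real.rpow_add (by norm_num)]
    rw [sub_eq_add_neg]
  have h4 := Finset.sum_le_sum fun ξ (_ : ξ ∈ (Finset.univ : Finset (Fin n → Bool))) => hf ξ
  rw [h3, ← h1] at h4
  convert h4 using 3

end Pool.Agent.H74.E0
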