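import Pool.Agent.H88.MC.Targets

/-!
# Maximum cut in polynomial space: CS (the two definitions of the size of a cut)
-/

set_option autoImplicit false

namespace Pool.Agent.H74.E0.CS

open Finset Pool.Agent.H88.MC

theorem pf_cs : T_CS := by
  intro n G y
  classical
  set A : Finset (Fin n × Fin n) :=
    Finset.univ.filter fun p => G.Adj p.1 p.2 ∧ y p.1 = true ∧ y p.2 = false with hA
  set B : Finset (Fin n × Fin n) :=
    Finset.univ.filter fun p => G.Adj p.1 p.2 ∧ y p.1 = false ∧ y p.2 = true with hB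
  have h1 : cutSize G {v | y v = true} = #A := by
    unfold cutSize
    have h : {e | e ∈ G.edgeSet ∧ ∃ u ∈ {v | y v = true}, ∃ v ∉ {v | y v = true}, e = s(u, v)} =
        (fun p : Fin n × Fin n => s(p.1, p.2)) '' (A : Set (Fin n × Fin n)) := by
      ext e
      constructor
      · rintro ⟨he, u, hu, v, hv, rfl⟩
        refine ⟨(u, v), ?_, rfl⟩
        rw [Finset.mem_coe, hA, Finset.mem_filter]
        refine ⟨Finset.mem_univ _, he, hu, ?_⟩
        simpa using hv
      · rintro ⟨⟨u, v⟩, hp, rfl⟩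
        rw [Finset.mem_coe, hA, Finset.mem_filter] at hp
        refine ⟨hp.2.1, u, hp.2.2.1, v, ?_, rfl⟩
        simpa using hp.2.2.2
    rw [h, Set.InjOn.ncard_image, Set.ncard_coe_finset]
    rintro ⟨u, v⟩ hp ⟨u', v'⟩ hp' he
    rw [Finset.mem_coe, hA, Finset.mem_filter] at hp hp'
    simp only at hp hp' he
    rcases Sym2.eq_iff.1 he with ⟨rfl, rfl⟩ | ⟨rfl, rfl⟩
    · rfl
    · have h2 := hp.2.2.1
      rw [hp'.2.2.2] at h2
      exact absurd h2 (by simp)
  have h2 : #B = #A := by
    refine Finset.card_bij (fun p _ => (p.2, p.1)) ?_ ?_ ?_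
    · rintro ⟨u, v⟩ hp
      rw [hB, Finset.mem_filter] at hp
      rw [hA, Finset.mem_filter]
      exact ⟨Finset.mem_univ _, hp.2.1.symm, hp.2.2.2, hp.2.2.1⟩
    · rintro ⟨u, v⟩ _ ⟨u', v'⟩ _ he
      simp only [Prod.mk.injEq] at he
      rw [Prod.mk.injEq]
      exact ⟨he.2, he.1⟩
    · rintro ⟨u, v⟩ hp
      rw [hA, Finset.mem_filter] at hp
      refine ⟨(v, u), ?_, rfl⟩
      rw [hB, Finset.mem_filter]
      exact ⟨Finset.mem_univ _, hp.2.1.symm, hp.2.2.2, hp.2.2.1⟩
  have h3 : cutv G y = #A + #B := by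
    unfold cutv
    rw [hA, hB, Finset.card_filter, Finset.card_filter, ← Finset.sum_add_distrib,
      Fintype.sum_prod_type]
    refine Finset.sum_congr rfl fun u _ => ?_
    rw [nb, Finset.filter_filter, Finset.card_filter]
    refine Finset.sum_congr rfl fun v _ => ?_
    by_cases h : G.Adj u v
    · cases y u <;> cases y v <;> simp [h]
    · simp [h]
  rw [h3, h1, h2]
  ring

end Pool.Agent.H74.E0.CS
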