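import Pool.Agent.H88.MC.Targets

/-!
# Maximum cut in polynomial space: HW1 (decoupling)
-/

set_option autoImplicit false

namespace Pool.Agent.H74.E0.HW1

open Finset Pool.Agent.H88.MC

variable {n : ℕ}

/-- flipping one coordinate -/
def fl (u : Fin n) (y : Fin n → Bool) : Fin n → Bool := Function.update y u (!y u)

lemma fl_fl (u : Fin n) (y : Fin n → Bool) : fl u (fl u y) = y := by
  funext v
  unfold fl
  by_cases h : v = u
  · subst h
    simp
  · simp [Function.update_of_ne h]

lemma sum_fl (u : Fin n) (F : (Fin n → Bool) → ℝ) : ∑ y, F (fl u y) = ∑ y, F y :=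
  Equiv.sum_comp (Function.Involutive.toPerm (fl u) (fl_fl u)) F

lemma sgr_fl_same (u : Fin n) (y : Fin n → Bool) : sgr (fl u y) u = -sgr y u := by
  unfold sgr fl
  rw [Function.update_self]
  cases y u <;> simp

lemma sgr_fl_ne {u v : Fin n} (h : v ≠ u) (y : Fin n → Bool) : sgr (fl u y) v = sgr y v := by
  unfold sgr fl
  rw [Function.update_of_ne h]

lemma sgr_sq (y : Fin n → Bool) (u : Fin n) : sgr y u ^ 2 = 1 := by
  unfold sgr
  split_ifs <;> norm_num

/-- flipping a set of coordinates -/
def fs (e y : Fin n → Bool) : Fin n → Bool := fun v => if e v then !y v else y v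

lemma fs_fs (e y : Fin n → Bool) : fs e (fs e y) = y := by
  funext v
  unfold fs
  split_ifs <;> simp

lemma sum_fs (e : Fin n → Bool) (F : (Fin n → Bool) → ℝ) : ∑ y, F (fs e y) = ∑ y, F y :=
  Equiv.sum_comp (Function.Involutive.toPerm (fs e) (fs_fs e)) F

/-- averaging over the coordinates in `w` -/
lemma avg (w : Finset (Fin n)) (b : ℝ) (g : Fin n → (Fin n → Bool) → ℝ)
    (hg : ∀ u ∈ w, ∀ u' y, g u' (fl u y) = g u' y) (T : Finset (Fin n)) (hT : T ⊆ w) :
    ∑ y, Real.exp (∑ u ∈ w, b * sgr y u * g u y) ≤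
      ∑ y, Real.exp (∑ u ∈ w \ T, b * sgr y u * g u y + ∑ u ∈ T, (b * g u y) ^ 2 / 2) := by
  classical
  induction T using Finset.induction_on with
  | empty => simp
  | insert v T hv ih =>
    refine (ih ((Finset.subset_insert v T).trans hT)).trans ?_
    have hvw : v ∈ w := hT (Finset.mem_insert_self v T)
    have hw : w \ T = insert v (w \ insert v T) := by
      ext u
      simp only [Finset.mem_sdiff, Finset.mem_insert, not_or]
      constructor
      · rintro ⟨h1, h2⟩
        by_cases h : u = v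
        · exact Or.inl h
        · exact Or.inr ⟨h1, h, h2⟩
      · rintro (h | h)
        · subst h
          exact ⟨hvw, hv⟩
        · exact ⟨h.1, h.2.2⟩
    have hv' : v ∉ w \ insert v T := by simp
    set R : (Fin n → Bool) → ℝ := fun y =>
      ∑ u ∈ w \ insert v T, b * sgr y u * g u y + ∑ u ∈ T, (b * g u y) ^ 2 / 2 with hR
    have hRf : ∀ y, R (fl v y) = R y := by
      intro y
      simp only [hR]
      congr 1
      · refine Finset.sum_congr rfl fun u hu => ?_
        have huv : u ≠ v := by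
          rintro rfl
          exact hv' hu
        rw [sgr_fl_ne huv, hg v hvw]
      · refine Finset.sum_congr rfl fun u _ => ?_
        rw [hg v hvw]
    have h1 : ∀ y, Real.exp (∑ u ∈ w \ T, b * sgr y u * g u y +
        ∑ u ∈ T, (b * g u y) ^ 2 / 2) = Real.exp (b * sgr y v * g v y + R y) := by
      intro y
      rw [hw, Finset.sum_insert hv', add_assoc]
    have h2 : ∀ y, Real.exp (∑ u ∈ w \ insert v T, b * sgr y u * g u y +
        ∑ u ∈ insert v T, (b * g u y) ^ 2 / 2) = Real.exp ((b * g v y) ^ 2 / 2 + R y) := by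
      intro y
      rw [Finset.sum_insert hv]
      congr 1
      simp only [hR]
      ring
    rw [Finset.sum_congr rfl fun y _ => h1 y, Finset.sum_congr rfl fun y _ => h2 y]
    have h3 := sum_fl v (fun y => Real.exp (b * sgr y v * g v y + R y))
    have h4 : ∀ y, Real.exp (b * sgr y v * g v y + R y) +
        Real.exp (b * sgr (fl v y) v * g v (fl v y) + R (fl v y)) ≤
        2 * Real.exp ((b * g v y) ^ 2 / 2 + R y) := by
      intro y
      rw [sgr_fl_same, hg v hvw, hRf]
      have h5 := Real.cosh_le_exp_half_sq (b * sgr y v * g v y)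
      have h6 : (b * sgr y v * g v y) ^ 2 = (b * g v y) ^ 2 := by
        have := sgr_sq y v
        calc (b * sgr y v * g v y) ^ 2 = sgr y v ^ 2 * (b * g v y) ^ 2 := by ring
          _ = _ := by rw [this, one_mul]
      rw [h6, Real.cosh_eq] at h5
      have h7 : b * -sgr y v * g v y = -(b * sgr y v * g v y) := by ring
      rw [h7, Real.exp_add _ (R y), Real.exp_add _ (R y), Real.exp_add _ (R y), ← add_mul]
      have h8 := Real.exp_pos (R y)
      nlinarith
    have h5 := Finset.sum_le_sum fun y (_ : y ∈ (Finset.univ : Finset (Fin n → Bool))) => h4 y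
    rw [Finset.sum_add_distrib, h3, ← Finset.mul_sum] at h5
    linarith

/-! ### the quadratic form -/

lemma qf_sq {K : Matrix (Fin n) (Fin n) ℝ} (hT : K.transpose = K) (hK : K * K = K)
    (z : Fin n → ℝ) : qf K z = ∑ u, (∑ v, K u v * z v) ^ 2 := by
  have h1 : qf K z = z ⬝ᵥ (K.mulVec z) := by
    unfold qf
    simp only [dotProduct, Matrix.mulVec, Finset.mul_sum]
    refine Finset.sum_congr rfl fun u _ => Finset.sum_congr rfl fun v _ => ?_
    ring
  have h2 : ∑ u, (∑ v, K u v * z v) ^ 2 = (K.mulVec z) ⬝ᵥ (K.mulVec z) := by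
    simp only [dotProduct, Matrix.mulVec, sq]
  rw [h1, h2]
  conv_rhs => rw [Matrix.dotProduct_mulVec, ← Matrix.mulVec_transpose, hT, Matrix.mulVec_mulVec,
    hK, dotProduct_comm]

lemma qf_nonneg {K : Matrix (Fin n) (Fin n) ℝ} (hT : K.transpose = K) (hK : K * K = K)
    (z : Fin n → ℝ) : 0 ≤ qf K z := by
  rw [qf_sq hT hK]
  exact Finset.sum_nonneg fun u _ => sq_nonneg _

lemma qf_par (K : Matrix (Fin n) (Fin n) ℝ) (x z : Fin n → ℝ) :
    qf K (fun v => x v + z v) + qf K (fun v => x v - z v) = 2 * qf K x + 2 * qf K z := by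
  unfold qf
  rw [← Finset.sum_add_distrib, Finset.mul_sum, Finset.mul_sum, ← Finset.sum_add_distrib]
  refine Finset.sum_congr rfl fun u _ => ?_
  rw [← Finset.sum_add_distrib, Finset.mul_sum, Finset.mul_sum, ← Finset.sum_add_distrib]
  refine Finset.sum_congr rfl fun v _ => ?_
  ring

/-- the coordinates in the set replaced by `0` -/
noncomputable def zb (e y : Fin n → Bool) (v : Fin n) : ℝ := (1 - sgr e v) / 2 * sgr y v

/-- the coordinates outside the set replaced by `0` -/
noncomputable def zi (e y : Fin n → Bool) (v : Fin n) : ℝ := (1 + sgr e v) / 2 * sgr y v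

lemma add_zb (e y : Fin n → Bool) : (fun v => zb e y v + zi e y v) = sgr y := by
  funext v
  unfold zb zi
  ring

lemma sub_zb (e y : Fin n → Bool) : (fun v => zb e y v - zi e y v) = sgr (fs e y) := by
  funext v
  unfold zb zi sgr fs
  cases e v <;> cases y v <;> norm_num

/-- the decoupled form -/
noncomputable def S (K : Matrix (Fin n) (Fin n) ℝ) (e y : Fin n → Bool) : ℝ :=
  ∑ u, zi e y u * ∑ v, K u v * zb e y v

lemma S_eq (K : Matrix (Fin n) (Fin n) ℝ) (e y : Fin n → Bool) (b : ℝ) :
    b * S K e y = ∑ u ∈ Finset.univ.filter (fun u => e u = true),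
      b * sgr y u * ∑ v, K u v * zb e y v := by
  unfold S
  rw [Finset.mul_sum, Finset.sum_filter]
  refine Finset.sum_congr rfl fun u _ => ?_
  unfold zi
  have h : (1 + sgr e u) / 2 = if e u = true then (1 : ℝ) else 0 := by
    unfold sgr
    split_ifs <;> norm_num
  rw [h]
  split_ifs
  · ring
  · ring

/-- (3) -/
lemma step3 {K : Matrix (Fin n) (Fin n) ℝ} (hT : K.transpose = K) (hK : K * K = K) (b : ℝ)
    (e : Fin n → Bool) :
    ∑ y, Real.exp (b * S K e y) ≤ ∑ y, Real.exp (b ^ 2 / 2 * qf K (zb e y)) := by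
  classical
  have h1 := avg (Finset.univ.filter (fun u => e u = true)) b
    (fun u y => ∑ v, K u v * zb e y v) (by
      intro u hu u' y
      refine Finset.sum_congr rfl fun v _ => ?_
      congr 1
      unfold zb
      by_cases h : v = u
      · subst h
        have he : sgr e v = 1 := by
          unfold sgr
          rw [if_pos (Finset.mem_filter.1 hu).2]
        rw [he]
        norm_num
      · rw [sgr_fl_ne h]) (Finset.univ.filter (fun u => e u = true)) (Finset.Subset.refl _)
  simp only [S_eq]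
  refine h1.trans (Finset.sum_le_sum fun y _ => Real.exp_le_exp.2 ?_)
  rw [Finset.sdiff_self, Finset.sum_empty, zero_add, qf_sq hT hK, Finset.mul_sum]
  refine (Finset.sum_le_sum_of_subset_of_nonneg (Finset.filter_subset _ _) fun u _ _ => by
    positivity).trans (le_of_eq ?_)
  refine Finset.sum_congr rfl fun u _ => ?_
  ring

/-- (4) -/
lemma step4 {K : Matrix (Fin n) (Fin n) ℝ} (hT : K.transpose = K) (hK : K * K = K) (c : ℝ)
    (hc : 0 ≤ c) (e : Fin n → Bool) :
    ∑ y, Real.exp (c * qf K (zb e y)) ≤ ∑ y, Real.exp (c * qf K (sgr y)) := by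
  have h1 : ∀ y, 2 * Real.exp (c * qf K (zb e y)) ≤
      Real.exp (c * qf K (sgr y)) + Real.exp (c * qf K (sgr (fs e y))) := by
    intro y
    have h2 := qf_par K (zb e y) (zi e y)
    rw [add_zb, sub_zb] at h2
    have h3 := qf_nonneg hT hK (zi e y)
    set A := c * qf K (sgr y) with hA
    set B := c * qf K (sgr (fs e y)) with hB
    have h4 : c * qf K (zb e y) ≤ A / 2 + B / 2 := by
      rw [hA, hB]
      nlinarith
    have h5 : Real.exp (A / 2 + B / 2) = Real.exp (A / 2) * Real.exp (B / 2) := Real.exp_add _ _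
    have h6 : Real.exp A = Real.exp (A / 2) ^ 2 := by
      rw [← Real.exp_nat_mul]
      congr 1
      push_cast
      ring
    have h7 : Real.exp B = Real.exp (B / 2) ^ 2 := by
      rw [← Real.exp_nat_mul]
      congr 1
      push_cast
      ring
    have h8 := Real.exp_le_exp.2 h4
    rw [h5] at h8
    rw [h6, h7]
    nlinarith [sq_nonneg (Real.exp (A / 2) - Real.exp (B / 2))]
  have h2 := Finset.sum_le_sum fun y (_ : y ∈ (Finset.univ : Finset (Fin n → Bool))) => h1 y
  rw [Finset.sum_add_distrib, sum_fs e (fun y => Real.exp (c * qf K (sgr y))),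
    ← Finset.mul_sum] at h2
  linarith

/-! ### averaging over the sets -/

lemma sum_sgr (u : Fin n) : ∑ e : Fin n → Bool, sgr e u = 0 := by
  have h := sum_fl u (fun e => sgr e u)
  simp only [sgr_fl_same, Finset.sum_neg_distrib] at h
  linarith

lemma sum_sgr_mul {u v : Fin n} (huv : u ≠ v) : ∑ e : Fin n → Bool, sgr e u * sgr e v = 0 := by
  have h := sum_fl u (fun e => sgr e u * sgr e v)
  simp only [sgr_fl_same, sgr_fl_ne huv.symm, neg_mul, Finset.sum_neg_distrib] at h
  linarith

lemma sum_ind (u v : Fin n) : ∑ e : Fin n → Bool, (1 + sgr e u) / 2 * ((1 - sgr e v) / 2) =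
    if u = v then 0 else 2 ^ n / 4 := by
  have h0 : ∀ e : Fin n → Bool, (1 + sgr e u) / 2 * ((1 - sgr e v) / 2) =
      1 / 4 + sgr e u * (1 / 4) - sgr e v * (1 / 4) - (sgr e u * sgr e v) * (1 / 4) := by
    intro e
    ring
  rw [Finset.sum_congr rfl fun e _ => h0 e, Finset.sum_sub_distrib, Finset.sum_sub_distrib,
    Finset.sum_add_distrib, ← Finset.sum_mul, ← Finset.sum_mul, ← Finset.sum_mul, sum_sgr,
    sum_sgr]
  simp only [Finset.sum_const, Finset.card_univ, Fintype.card_fun, Fintype.card_bool,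
    Fintype.card_fin, nsmul_eq_mul]
  push_cast
  split_ifs with h
  · subst h
    have h1 : ∀ e : Fin n → Bool, sgr e u * sgr e u = 1 := by
      intro e
      rw [← sq, sgr_sq]
    simp only [h1, Finset.sum_const, Finset.card_univ, Fintype.card_fun, Fintype.card_bool,
      Fintype.card_fin, nsmul_eq_mul]
    push_cast
    ring
  · rw [sum_sgr_mul h]
    ring

/-- (1) -/
lemma step1 (K : Matrix (Fin n) (Fin n) ℝ) (y : Fin n → Bool) :
    ∑ e, S K e y = 2 ^ n / 4 * (qf K (sgr y) - K.trace) := by
  have h1 : ∀ e, S K e y = ∑ u, ∑ v, (1 + sgr e u) / 2 * ((1 - sgr e v) / 2) *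
      (K u v * sgr y u * sgr y v) := by
    intro e
    unfold S zb zi
    refine Finset.sum_congr rfl fun u _ => ?_
    rw [Finset.mul_sum]
    refine Finset.sum_congr rfl fun v _ => ?_
    ring
  rw [Finset.sum_congr rfl fun e _ => h1 e, Finset.sum_comm]
  unfold qf Matrix.trace
  rw [← Finset.sum_sub_distrib, Finset.mul_sum]
  refine Finset.sum_congr rfl fun u _ => ?_
  rw [Finset.sum_comm]
  simp only [← Finset.sum_mul, sum_ind]
  have h2 : Matrix.diag K u = ∑ v, if u = v then K u v * sgr y u * sgr y v else 0 := by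
    rw [Finset.sum_ite_eq Finset.univ u, if_pos (Finset.mem_univ _), mul_assoc, ← sq, sgr_sq,
      mul_one]
    rfl
  rw [h2, ← Finset.sum_sub_distrib, Finset.mul_sum]
  refine Finset.sum_congr rfl fun v _ => ?_
  split_ifs <;> ring

theorem pf_hw1 : T_HW1 := by
  intro n K hT hK a
  have h1 : ∀ y : Fin n → Bool, Real.exp (a * (qf K (sgr y) - K.trace)) ≤
      ∑ e : Fin n → Bool, (2 ^ n : ℝ)⁻¹ * Real.exp (4 * a * S K e y) := by
    intro y
    have h2 := convexOn_exp.map_sum_le (t := (Finset.univ : Finset (Fin n → Bool)))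
      (w := fun _ => (2 ^ n : ℝ)⁻¹) (p := fun e => 4 * a * S K e y)
      (fun _ _ => by positivity) (by
        simp only [Finset.sum_const, Finset.card_univ, Fintype.card_fun, Fintype.card_bool,
          Fintype.card_fin, nsmul_eq_mul]
        push_cast
        exact mul_inv_cancel₀ (by positivity)) (fun _ _ => Set.mem_univ _)
    simp only [smul_eq_mul] at h2
    refine le_trans (le_of_eq ?_) h2
    congr 1
    rw [← Finset.mul_sum, ← Finset.mul_sum, step1]
    field_simp
  have h2 : ∀ e : Fin n → Bool, ∑ y, Real.exp (4 * a * S K e y) ≤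
      ∑ y : Fin n → Bool, Real.exp (8 * a ^ 2 * qf K (sgr y)) := by
    intro e
    refine (step3 hT hK (4 * a) e).trans ?_
    have h3 : (4 * a) ^ 2 / 2 = 8 * a ^ 2 := by ring
    rw [h3]
    exact step4 hT hK _ (by positivity) e
  calc ∑ y : Fin n → Bool, Real.exp (a * (qf K (sgr y) - K.trace)) ≤
      ∑ y : Fin n → Bool, ∑ e : Fin n → Bool, (2 ^ n : ℝ)⁻¹ * Real.exp (4 * a * S K e y) :=
        Finset.sum_le_sum fun y _ => h1 y
    _ = ∑ e : Fin n → Bool, (2 ^ n : ℝ)⁻¹ * ∑ y : Fin n → Bool, Real.exp (4 * a * S K e y) := by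
        rw [Finset.sum_comm]
        simp only [Finset.mul_sum]
    _ ≤ ∑ e : Fin n → Bool, (2 ^ n : ℝ)⁻¹ *
        ∑ y : Fin n → Bool, Real.exp (8 * a ^ 2 * qf K (sgr y)) :=
        Finset.sum_le_sum fun e _ => mul_le_mul_of_nonneg_left (h2 e) (by positivity)
    _ = ∑ y : Fin n → Bool, Real.exp (8 * a ^ 2 * qf K (sgr y)) := by
        rw [Finset.sum_const, Finset.card_univ, Fintype.card_fun, Fintype.card_bool,
          Fintype.card_fin, nsmul_eq_mul]
        push_cast
        rw [← mul_assoc, mul_inv_cancel₀ (by positivity), one_mul]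

end Pool.Agent.H74.E0.HW1
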