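import Pool.Agent.H88.MC.Targets

/-!
# Maximum cut in polynomial space: IN (injectivity)
-/

set_option autoImplicit false

namespace Pool.Agent.H74.E0.INN

open Finset Pool.Agent.H88.MC

lemma mem_bits (j : ℕ) (t : List ℕ) : t ∈ bits j → t.length = j ∧ ∀ x ∈ t, x ≤ 1 := by
  induction j generalizing t with
  | zero =>
    intro h
    simp only [bits, Finset.mem_singleton] at h
    subst h
    simp
  | succ j ih =>
    intro h
    simp only [bits, Finset.mem_union, Finset.mem_image] at h
    rcases h with ⟨s, hs, rfl⟩ | ⟨s, hs, rfl⟩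
    · obtain ⟨h1, h2⟩ := ih s hs
      refine ⟨by simp [h1], ?_⟩
      intro x hx
      rcases List.mem_cons.1 hx with h | h
      · omega
      · exact h2 x h
    · obtain ⟨h1, h2⟩ := ih s hs
      refine ⟨by simp [h1], ?_⟩
      intro x hx
      rcases List.mem_cons.1 hx with h | h
      · omega
      · exact h2 x h

lemma bt_le {j : ℕ} {t : List ℕ} (ht : t ∈ bits j) (i : ℕ) : bt t i ≤ 1 := by
  obtain ⟨h1, h2⟩ := mem_bits j t ht
  unfold bt
  split_ifs with h
  · have h3 : t.length - 1 - i < t.length := by omega
    rw [List.getD_eq_getElem _ _ h3]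
    exact h2 _ (List.getElem_mem h3)
  · omega

lemma bt_zero {j : ℕ} {t : List ℕ} (ht : t ∈ bits j) {i : ℕ} (hi : j ≤ i) : bt t i = 0 := by
  obtain ⟨h1, h2⟩ := mem_bits j t ht
  unfold bt
  rw [if_neg (by omega)]

lemma ext_bt {j : ℕ} {t t' : List ℕ} (ht : t ∈ bits j) (ht' : t' ∈ bits j)
    (h : ∀ i, bt t i = bt t' i) : t = t' := by
  obtain ⟨h1, -⟩ := mem_bits j t ht
  obtain ⟨h1', -⟩ := mem_bits j t' ht'
  refine List.ext_getElem (by omega) fun i hi hi' => ?_
  have h2 := h (t.length - 1 - i)
  unfold bt at h2
  rw [if_pos (by omega), if_pos (by omega)] at h2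
  have h3 : t.length - 1 - (t.length - 1 - i) = i := by omega
  have h4 : t'.length - 1 - (t.length - 1 - i) = i := by omega
  rw [h3, h4, List.getD_eq_getElem _ _ hi, List.getD_eq_getElem _ _ hi'] at h2
  exact h2

/-- a nonincreasing block of bits -/
lemma block (f : ℕ → ℕ) (m : ℕ) (h1 : ∀ l, f l ≤ 1) (h2 : ∀ l, l + 1 < m → f (l + 1) ≤ f l) :
    ∀ l < m, f l = if l < ∑ i ∈ range m, f i then 1 else 0 := by
  have hmono : ∀ a b, a ≤ b → b < m → f b ≤ f a := by
    intro a b hab
    induction b, hab using Nat.le_induction with
    | base => intro _; exact le_rfl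
    | succ b hab ih =>
      intro hb
      exact (h2 b hb).trans (ih (by omega))
  intro l hl
  split_ifs with h
  · by_contra hne
    have h3 : f l = 0 := by
      have := h1 l
      omega
    have h4 : ∑ i ∈ range m, f i ≤ l := by
      calc ∑ i ∈ range m, f i = ∑ i ∈ (range m).filter (fun i => i < l), f i +
          ∑ i ∈ (range m).filter (fun i => ¬ i < l), f i :=
            (Finset.sum_filter_add_sum_filter_not _ _ _).symm
        _ = ∑ i ∈ (range m).filter (fun i => i < l), f i := by
            rw [Finset.sum_eq_zero (s := (range m).filter (fun i => ¬ i < l)), add_zero]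
            intro i hi
            rw [Finset.mem_filter, Finset.mem_range] at hi
            have := hmono l i (by omega) hi.1
            omega
        _ ≤ ∑ i ∈ (range m).filter (fun i => i < l), 1 := Finset.sum_le_sum fun i _ => h1 i
        _ = #((range m).filter (fun i => i < l)) := by rw [Finset.card_eq_sum_ones]
        _ ≤ #(range l) := Finset.card_le_card (by
            intro i hi
            rw [Finset.mem_filter] at hi
            exact Finset.mem_range.2 hi.2)
        _ = l := Finset.card_range l
    omega
  · by_contra hne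
    have h3 : f l = 1 := by
      have := h1 l
      omega
    have h4 : l + 1 ≤ ∑ i ∈ range m, f i := by
      calc l + 1 = ∑ i ∈ range (l + 1), 1 := by simp
        _ ≤ ∑ i ∈ range (l + 1), f i := by
            refine Finset.sum_le_sum fun i hi => ?_
            rw [Finset.mem_range] at hi
            have := hmono i l (by omega) hl
            omega
        _ ≤ ∑ i ∈ range m, f i :=
            Finset.sum_le_sum_of_subset (Finset.range_subset_range.2 (by omega))
    omega

theorem pf_in : T_IN := by
  intro n j t t' hj ht ht' hP hP' hq hx hu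
  refine ext_bt ht ht' fun i => ?_
  by_cases h8 : i < 8 * n
  · have hn : 0 < n := by omega
    have hr : i / (2 * n) < 4 := by
      rw [Nat.div_lt_iff_lt_mul (by omega)]
      omega
    have hi : 2 * n * (i / (2 * n)) + i % (2 * n) = i := Nat.div_add_mod _ _
    have hl : i % (2 * n) < 2 * n := Nat.mod_lt _ (by omega)
    have h1 := block (fun l => bt t (2 * n * (i / (2 * n)) + l)) (2 * n) (fun l => bt_le ht _)
      (fun l hl => hP _ hr l hl) _ hl
    have h2 := block (fun l => bt t' (2 * n * (i / (2 * n)) + l)) (2 * n) (fun l => bt_le ht' _)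
      (fun l hl => hP' _ hr l hl) _ hl
    have h3 := hq _ hr
    unfold qv at h3
    rw [hi] at h1 h2
    rw [h1, h2, h3]
  · by_cases h9 : i < 9 * n
    · have h1 := congrFun hx ⟨i - 8 * n, by omega⟩
      unfold xi at h1
      rw [decide_eq_decide] at h1
      have h2 : 8 * n + (i - 8 * n) = i := by omega
      simp only [h2] at h1
      have h3 := bt_le ht i
      have h4 := bt_le ht' i
      omega
    · by_cases h10 : i < 10 * n
      · have h1 := congrFun hu ⟨i - 9 * n, by omega⟩
        unfold up at h1
        rw [decide_eq_decide] at h1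
        have h2 : 9 * n + (i - 9 * n) = i := by omega
        simp only [h2] at h1
        have h3 := bt_le ht i
        have h4 := bt_le ht' i
        omega
      · rw [bt_zero ht (by omega), bt_zero ht' (by omega)]

end Pool.Agent.H74.E0.INN
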